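import Pool.Agent.Helper73.OB.GoalsA
import Pool.Agent.Helper73.OB.GoalsB

/-!
# Packet TAIL1 of project OB (MP_fc0446_an): exponential tails of one exchange
-/

set_option autoImplicit false

open MeasureTheory
open scoped ENNReal

namespace Pool.Agent.Helper18.OB

open Pool.Agent.Helper73.OB

section

variable {S : Type} {βZ βD : S → S} {p : Bit → S} {X : Type} [mX : MeasurableSpace X]
  {μ : Measure X} {f g : S → X → X} {s : X → Sk} {K K' : Bit → Bit → X → List S} {G : Set X}

theorem sig_le (ex : Exch βZ βD p μ f g s K K' G) (Q : Set (List S)) : sig f s Q ≤ mX := by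
  refine iSup₂_le fun w _ => ?_
  rw [← measurable_iff_comap_le]
  exact ex.meas.comp (ex.sysZ.run_mp w).measurable

/-- the inverse letter of an H-letter is an H-letter -/
theorem beta_notMem (fr : Fr βZ p 0) {a : S} (ha : a ∉ Set.range p) : βZ a ∉ Set.range p := by
  rintro ⟨z, hz⟩
  apply ha
  refine ⟨z + 1 + 0, ?_⟩
  rw [← fr.bp z, hz, fr.inv]

theorem tail_sets [Fintype S] [IsProbabilityMeasure μ] (h1 : S_SPEC) (h2 : S_SUB) (h3 : S_PRB)
    {e : unitInterval} (ex : Exch βZ βD p μ f g s K K' G) (tm : TM βZ p 0 e μ f s)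
    (hT : ∀ z c, TailSets βZ p μ f s (K z c) (K' z c))
    {m : ℕ} (hm : m = Nat.card {a : S // a ∉ Set.range p}) (hm2 : 2 ≤ m) (z c : Bit) (n : ℕ) :
    ∃ A B : Set X, MeasurableSet A ∧ MeasurableSet B ∧
      μ A ≤ ENNReal.ofReal ((2 * Real.sqrt (m - 1) / m) ^ n) ∧
      μ B ≤ ENNReal.ofReal ((2 * Real.sqrt (m - 1) / m) ^ n) ∧
      {x | n < (K z c x).length} ⊆ A ∧ {x | n < (K' z c x).length} ⊆ B := by
  classical
  obtain ⟨A, B, hA, hB, hAB, hKA, hKB, hnull⟩ := hT z c n
  set β' : {a : S // a ∉ Set.range p} → {a : S // a ∉ Set.range p} :=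
    fun a => ⟨βZ a.1, beta_notMem ex.frZ a.2⟩ with hβ'
  obtain ⟨hsys, hbnl, hwords, hsig⟩ := h2 S βZ p 0 ex.frZ e X μ f ex.sysZ s tm β' fun a => rfl
  have : IsProbabilityMeasure (kap e) := (h3.2 e).2.1
  have hinv : ∀ a, β' (β' a) = a := fun a => Subtype.ext (ex.frZ.inv a.1)
  have hcard : Fintype.card {a : S // a ∉ Set.range p} = m := by
    rw [hm, Nat.card_eq_fintype_card]
  have key := h1 {a : S // a ∉ Set.range p} β' hinv (by rw [hcard]; exact hm2) X μ
    (fun a => f a.1) hsys Sk (kap e) s hbnl A B (by rw [hsig]; exact hA) (by rw [hsig]; exact hB)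
    hAB n (by
      intro h hh hlen
      have h4 := hnull (h.map Subtype.val) ((hwords h).1.1 hh)
        (by
          intro a ha
          obtain ⟨b, -, rfl⟩ := List.mem_map.1 ha
          exact b.2)
        (by rw [List.length_map]; exact hlen)
      have h5 : run (fun a : {a : S // a ∉ Set.range p} => f a.1) h =
          run f (h.map Subtype.val) := funext (hwords h).2
      rw [h5]
      exact h4)
  rw [hcard] at key
  refine ⟨A, B, sig_le ex _ A hA, sig_le ex _ B hB, key, hAB ▸ key, hKA, hKB⟩

theorem length_invw (β : S → S) (w : List S) : (invw β w).length = w.length := by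
  simp [invw]

/-- the word of `g (p c) x` in the letters `f` -/
theorem word_fg (ex : Exch βZ βD p μ f g s K K' G) {x : X} (hx : x ∈ G) (c : Bit) :
    ∃ z : Bit, ∃ w : List S, run f w x = g (p c) x ∧
      w.length = (K' z c x).length + 1 + (K' (z + 1) c (g (p c) x)).length := by
  set z : Bit := (s x).2.1 1 c with hz
  set v : X := run f (K' z c x) x with hv
  set y : X := f (p z) v with hy
  have hvG : ∀ w : List S, ∀ x ∈ G, run f w x ∈ G := by
    intro w
    induction w with
    | nil => intro x hx; exact hx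
    | cons a w ih => intro x hx; exact ih _ (ex.G_f a x hx)
  have h1 : g (p c) x = run f (K (z + 1) c y) y := ex.g_P c x hx z rfl y rfl
  have h2 : (s v).2.1 0 z = c := (ex.th' z c x hx rfl).1
  have h3 : (s y).2.1 0 (z + 1) = c := by
    rw [← h2]
    exact ex.edge v (hvG _ x hx) z
  have hyG : y ∈ G := ex.G_f _ _ (hvG _ x hx)
  have h4 := (ex.th (z + 1) c y hyG h3).2
  rw [← h1] at h4
  refine ⟨z, K' z c x ++ p z :: K (z + 1) c y, ?_, ?_⟩
  · rw [run_append, run_cons, ← hv, ← hy, ← h1]
  · rw [List.length_append, List.length_cons, h4, length_invw]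
    omega

/-- the word of `f (p z) x` in the letters `g` -/
theorem word_gf (ex : Exch βZ βD p μ f g s K K' G) {x : X}
    (hx : x ∈ G) (z : Bit) :
    ∃ c : Bit, ∃ w : List S, run g w x = f (p z) x ∧
      w.length = (K z c x).length + 1 + (K (z + 1) c (f (p z) x)).length := by
  set c : Bit := (s x).2.1 0 z with hc
  set v : X := run f (K z c x) x with hv
  have hvG : ∀ w : List S, ∀ x ∈ G, run f w x ∈ G := by
    intro w
    induction w with
    | nil => intro x hx; exact hx
    | cons a w ih => intro x hx; exact ih _ (ex.G_f a x hx)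
  have hH : ∀ h : List S, IsH p h → ∀ x, run g h x = run f h x := by
    intro h
    induction h with
    | nil => intro _ x; rfl
    | cons a h ih =>
      intro hh x
      rw [run_cons, run_cons, ex.g_H a (hh a List.mem_cons_self),
        ih (fun b hb => hh b (List.mem_cons_of_mem _ hb))]
  obtain ⟨h1, h2⟩ := ex.th z c x hx rfl
  rw [← hv] at h1 h2
  have h3 : run f (K' z c v) v = x := by
    rw [h2, hv]
    exact run_invw ex.sysZ.inv _ _
  have h4 : g (p c) v = run f (K (z + 1) c (f (p z) x)) (f (p z) x) :=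
    ex.g_P c v (hvG _ x hx) z h1.symm _ (by rw [h3])
  have h5 : (s (f (p z) x)).2.1 0 (z + 1) = c := ex.edge x hx z
  have h6 := (ex.th (z + 1) c (f (p z) x) (ex.G_f _ _ hx) h5).2
  rw [← h4] at h6
  refine ⟨c, K z c x ++ p c :: K' (z + 1) c (g (p c) v), ?_, ?_⟩
  · rw [run_append, run_cons, hH _ (ex.K_H z c x).2, ← hv, hH _ (ex.K'_H _ _ _).2, h6, h4]
    exact run_invw ex.sysZ.inv _ _
  · rw [List.length_append, List.length_cons, h6, length_invw]
    omega

end

theorem bit_cases : ∀ z : Bit, z = 0 ∨ z = 1 := by decide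

/-- the numerical estimate -/
theorem rho_lt {m : ℕ} (hm : 3 ≤ m) :
    0 < 2 * Real.sqrt ((m : ℝ) - 1) / m ∧ 2 * Real.sqrt ((m : ℝ) - 1) / m < 1 := by
  have hm' : (3 : ℝ) ≤ m := by exact_mod_cast hm
  have h1 : 0 < Real.sqrt ((m : ℝ) - 1) := Real.sqrt_pos.2 (by linarith)
  refine ⟨by positivity, ?_⟩
  rw [div_lt_one (by linarith)]
  have h2 : Real.sqrt ((m : ℝ) - 1) ^ 2 = (m : ℝ) - 1 := Real.sq_sqrt (by linarith)
  nlinarith [sq_nonneg (Real.sqrt ((m : ℝ) - 1) - 1), h1]

theorem num_bound {ρ : ℝ} (h0 : 0 < ρ) (h1 : ρ < 1) (n : ℕ) (hn : 1 ≤ n) :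
    4 * ρ ^ ((n - 1) / 2) ≤ 4 / ρ * Real.exp (-(-(Real.log ρ) / 2 * (n : ℝ) ^ (1 : ℝ))) := by
  have hlog : Real.log ρ < 0 := Real.log_neg h0 h1
  rw [Real.rpow_one]
  have h2 : ρ ^ ((n - 1) / 2) = Real.exp (Real.log ρ * ((n - 1) / 2 : ℕ)) := by
    rw [mul_comm, Real.exp_nat_mul, Real.exp_log h0]
  have h3 : 4 / ρ = 4 * Real.exp (-Real.log ρ) := by
    rw [Real.exp_neg, Real.exp_log h0]
    rfl
  rw [h2, h3, mul_assoc, ← Real.exp_add]
  refine mul_le_mul_of_nonneg_left (Real.exp_le_exp.2 ?_) (by norm_num)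
  have h4 : (n : ℝ) ≤ 2 * (((n - 1) / 2 : ℕ) : ℝ) + 2 := by
    have : n ≤ 2 * ((n - 1) / 2) + 2 := by omega
    exact_mod_cast this
  nlinarith

theorem tail1 (h1 : S_SPEC) (h2 : S_SUB) (h3 : S_PRB) : S_TAIL1 := by
  intro S _ βZ βD p e X _ μ _ f g s K K' G ex tm hT hcard
  obtain ⟨hρ0, hρ1⟩ := rho_lt hcard
  set m : ℕ := Nat.card {a : S // a ∉ Set.range p} with hm
  set ρ : ℝ := 2 * Real.sqrt ((m : ℝ) - 1) / m with hρ
  have hsets := fun z c n => tail_sets h1 h2 h3 ex tm hT hm (by omega) z c n
  choose A B hA hB hμA hμB hKA hKB using hsets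
  have hG0 : μ Gᶜ = 0 := ex.G_full
  have hC : 1 ≤ 4 / ρ := by
    rw [le_div_iff₀ hρ0]
    linarith
  have hρn : ∀ n : ℕ, 0 ≤ ρ ^ n := fun n => pow_nonneg hρ0.le n
  -- four sets
  have four : ∀ (n : ℕ) (E : Set X) (U : Fin 4 → Set X),
      E ⊆ Gᶜ ∪ ⋃ i, U i → (∀ i, μ (U i) ≤ ENNReal.ofReal (ρ ^ n)) →
      μ E ≤ ENNReal.ofReal (4 * ρ ^ n) := by
    intro n E U hE hU
    calc μ E ≤ μ (Gᶜ ∪ ⋃ i, U i) := measure_mono hE
      _ ≤ μ Gᶜ + μ (⋃ i, U i) := measure_union_le _ _
      _ ≤ 0 + ∑ i, μ (U i) := by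
          rw [hG0]
          exact add_le_add le_rfl (measure_iUnion_fintype_le μ U)
      _ ≤ ∑ _i : Fin 4, ENNReal.ofReal (ρ ^ n) := by
          rw [zero_add]
          exact Finset.sum_le_sum fun i _ => hU i
      _ = ENNReal.ofReal (4 * ρ ^ n) := by
          rw [Finset.sum_const, Finset.card_univ, Fintype.card_fin, nsmul_eq_mul,
            ENNReal.ofReal_mul (by norm_num)]
          norm_num
  refine ⟨4 / ρ, -(Real.log ρ) / 2, by have := Real.log_neg hρ0 hρ1; linarith, ?_, ?_⟩
  · intro n a
    rcases Nat.eq_zero_or_pos n with hn | hn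
    · subst hn
      refine le_trans prob_le_one ?_
      rw [← ENNReal.ofReal_one]
      refine ENNReal.ofReal_le_ofReal ?_
      simpa using hC
    · by_cases ha : a ∈ Set.range p
      · obtain ⟨c, rfl⟩ := ha
        refine le_trans (four ((n - 1) / 2) _ ![B 0 c ((n - 1) / 2), B 1 c ((n - 1) / 2),
          g (p c) ⁻¹' B 0 c ((n - 1) / 2), g (p c) ⁻¹' B 1 c ((n - 1) / 2)] ?_ ?_)
          (ENNReal.ofReal_le_ofReal (num_bound hρ0 hρ1 n hn))
        · intro x hx
          by_contra hcon
          simp only [Set.mem_union, Set.mem_iUnion, not_or, not_exists, Set.mem_compl_iff,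
            not_not] at hcon
          obtain ⟨hxG, hU⟩ := hcon
          have u0 := hU 0
          have u1 := hU 1
          have u2 := hU 2
          have u3 := hU 3
          simp only [Matrix.cons_val, Set.mem_preimage] at u0 u1 u2 u3
          have hb : ∀ z, (K' z c x).length ≤ (n - 1) / 2 := by
            intro z
            by_contra h5
            have h6 := hKB z c _ (not_le.1 h5)
            have hz : z = 0 ∨ z = 1 := bit_cases z
            rcases hz with rfl | rfl
            · exact u0 h6
            · exact u1 h6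
          have hb2 : ∀ z, (K' z c (g (p c) x)).length ≤ (n - 1) / 2 := by
            intro z
            by_contra h5
            have h6 := hKB z c _ (not_le.1 h5)
            have hz : z = 0 ∨ z = 1 := bit_cases z
            rcases hz with rfl | rfl
            · exact u2 h6
            · exact u3 h6
          obtain ⟨z, w, hw, hlen⟩ := word_fg ex hxG c
          refine hx ⟨w, ?_, hw⟩
          have h7 := hb z
          have h8 := hb2 (z + 1)
          omega
        · intro i
          fin_cases i
          · exact hμB 0 c _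
          · exact hμB 1 c _
          · exact ((ex.sysD.mp (p c)).measure_preimage (hB 0 c _).nullMeasurableSet).trans_le
              (hμB 0 c _)
          · exact ((ex.sysD.mp (p c)).measure_preimage (hB 1 c _).nullMeasurableSet).trans_le
              (hμB 1 c _)
      · have h5 : {x | ¬ ∃ w : List S, w.length ≤ n ∧ run f w x = g a x} = ∅ := by
          ext x
          simp only [Set.mem_ofPred_eq, Set.mem_empty_iff_false, iff_false, not_not]
          exact ⟨[a], hn, by rw [ex.g_H a ha]; rfl⟩
        rw [h5, measure_empty]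
        exact zero_le
  · intro n a
    rcases Nat.eq_zero_or_pos n with hn | hn
    · subst hn
      refine le_trans prob_le_one ?_
      rw [← ENNReal.ofReal_one]
      refine ENNReal.ofReal_le_ofReal ?_
      simpa using hC
    · by_cases ha : a ∈ Set.range p
      · obtain ⟨z, rfl⟩ := ha
        refine le_trans (four ((n - 1) / 2) _ ![A z 0 ((n - 1) / 2), A z 1 ((n - 1) / 2),
          f (p z) ⁻¹' A (z + 1) 0 ((n - 1) / 2), f (p z) ⁻¹' A (z + 1) 1 ((n - 1) / 2)] ?_ ?_)
          (ENNReal.ofReal_le_ofReal (num_bound hρ0 hρ1 n hn))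
        · intro x hx
          by_contra hcon
          simp only [Set.mem_union, Set.mem_iUnion, not_or, not_exists, Set.mem_compl_iff,
            not_not] at hcon
          obtain ⟨hxG, hU⟩ := hcon
          have u0 := hU 0
          have u1 := hU 1
          have u2 := hU 2
          have u3 := hU 3
          simp only [Matrix.cons_val, Set.mem_preimage] at u0 u1 u2 u3
          have hb : ∀ c, (K z c x).length ≤ (n - 1) / 2 := by
            intro c
            by_contra h5
            have h6 := hKA z c _ (not_le.1 h5)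
            have hz : c = 0 ∨ c = 1 := bit_cases c
            rcases hz with rfl | rfl
            · exact u0 h6
            · exact u1 h6
          have hb2 : ∀ c, (K (z + 1) c (f (p z) x)).length ≤ (n - 1) / 2 := by
            intro c
            by_contra h5
            have h6 := hKA (z + 1) c _ (not_le.1 h5)
            have hz : c = 0 ∨ c = 1 := bit_cases c
            rcases hz with rfl | rfl
            · exact u2 h6
            · exact u3 h6
          obtain ⟨c, w, hw, hlen⟩ := word_gf ex hxG z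
          refine hx ⟨w, ?_, hw⟩
          have h7 := hb c
          have h8 := hb2 c
          omega
        · intro i
          fin_cases i
          · exact hμA z 0 _
          · exact hμA z 1 _
          · exact ((ex.sysZ.mp (p z)).measure_preimage
              (hA (z + 1) 0 _).nullMeasurableSet).trans_le (hμA (z + 1) 0 _)
          · exact ((ex.sysZ.mp (p z)).measure_preimage
              (hA (z + 1) 1 _).nullMeasurableSet).trans_le (hμA (z + 1) 1 _)
      · have h5 : {x | ¬ ∃ w : List S, w.length ≤ n ∧ run g w x = f a x} = ∅ := by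
          ext x
          simp only [Set.mem_ofPred_eq, Set.mem_empty_iff_false, iff_false, not_not]
          exact ⟨[a], hn, by rw [← ex.g_H a ha]; rfl⟩
        rw [h5, measure_empty]
        exact zero_le

end Pool.Agent.Helper18.OB
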